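import Pool.Agent.MP_c60df9_co.H39.Main

set_option autoImplicit false

namespace Pool.Agent.MP_c60df9_co.H48

open Sum Relation Pool.Agent.MP_c60df9_co.H39

section
variable {I X K : Type} {H : SimpleGraph (I ⊕ X)} {β : ℝ}

/-- the embedding of a rooted graph into its cone -/
def em (K : Type) : I ⊕ X → I ⊕ (X ⊕ K) := Sum.map id inl

lemma em_inj : Function.Injective (em K : I ⊕ X → _) :=
  Function.injective_id.sumMap inl_injective

/-- new roots adjacent to every inner vertex -/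
def cone (H : SimpleGraph (I ⊕ X)) (K : Type) : SimpleGraph (I ⊕ (X ⊕ K)) where
  Adj a b := (∃ a' b', H.Adj a' b' ∧ a = em K a' ∧ b = em K b') ∨
    (∃ v κ, a = inl v ∧ b = inr (inr κ)) ∨ ∃ v κ, b = inl v ∧ a = inr (inr κ)
  symm := ⟨by
    rintro a b (⟨a', b', h, h1, h2⟩ | h | h)
    · exact Or.inl ⟨b', a', h.symm, h2, h1⟩
    · exact Or.inr (Or.inr h)
    · exact Or.inr (Or.inl h)⟩
  loopless := ⟨by
    rintro a (⟨a', b', h, h1, h2⟩ | ⟨v, κ, h1, h2⟩ | ⟨v, κ, h1, h2⟩)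
    · exact h.ne (em_inj (h1.symm.trans h2))
    · simp [h1] at h2
    · simp [h1] at h2⟩

lemma cone_em {a b : I ⊕ X} (h : H.Adj a b) : (cone H K).Adj (em K a) (em K b) :=
  Or.inl ⟨a, b, h, rfl, rfl⟩

lemma cone_k (v : I) (κ : K) : (cone H K).Adj (inl v) (inr (inr κ)) :=
  Or.inr (Or.inl ⟨v, κ, rfl, rfl⟩)

lemma cone_pre {S T : Set (I ⊕ (X ⊕ K))} (hS : ∀ κ, inr (inr κ) ∉ S) (hT : ∀ κ, inr (inr κ) ∉ T)
    {a b : I ⊕ (X ⊕ K)} (ha : a ∈ S) (hb : b ∈ T) (h : (cone H K).Adj a b) :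
    ∃ a' b', H.Adj a' b' ∧ a = em K a' ∧ b = em K b' := by
  rcases h with h | ⟨v, κ, -, rfl⟩ | ⟨v, κ, -, rfl⟩
  · exact h
  · exact absurd hb (hT κ)
  · exact absurd ha (hS κ)

lemma cone_conn {S : Set (I ⊕ (X ⊕ K))} (h : Conn (cone H K) S) (hS : ∀ κ, inr (inr κ) ∉ S) :
    Conn H (em K ⁻¹' S) := by
  obtain ⟨r, hr⟩ := h.1
  obtain ⟨r', rfl⟩ : ∃ r', r = em K r' := by
    rcases r with v | x | κ
    exacts [⟨inl v, rfl⟩, ⟨inr x, rfl⟩, absurd hr (hS κ)]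
  refine Conn.of_root (r := r') hr fun v hv => ?_
  refine h.ind (P := fun w => ∀ w', w = em K w' → Rch H (em K ⁻¹' S) r' w') hr ?_ ?_ _ hv v rfl
  · intro w' e
    rw [em_inj e]
    exact Rch.refl _ _
  · intro a ha b hb hab ih w' e
    obtain ⟨a', b', h1, h2, h3⟩ := cone_pre hS hS ha hb hab
    obtain rfl : w' = b' := em_inj (e.symm.trans h3)
    exact (ih a' h2).tail h1 (show em K w' ∈ S from e ▸ hb)

lemma cone_touch {S T : Set (I ⊕ (X ⊕ K))} (hS : ∀ κ, inr (inr κ) ∉ S) (hT : ∀ κ, inr (inr κ) ∉ T)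
    (h : Touch (cone H K) S T) : Touch H (em K ⁻¹' S) (em K ⁻¹' T) := by
  obtain ⟨a, ha, b, hb, h⟩ := h
  obtain ⟨a', b', h1, rfl, rfl⟩ := cone_pre hS hT ha hb h
  exact ⟨a', ha, b', hb, h1⟩

lemma rb_cone [Finite X] [Finite K] (hRB : RB β H) : RB (β + Nat.card K) (cone H K) := by
  intro J _ T B F hM
  have n1 : ∀ j ∈ T, ∀ κ, inr (inr κ) ∉ B j := fun j hj κ h =>
    Set.disjoint_left.1 (hM.dBF j hj (inr κ)) h (hM.root _)
  have n2 : ∀ x κ, inr (inr κ) ∉ F (inl x) := fun x κ h =>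
    Set.disjoint_left.1 (hM.mF.disj (inl x) trivial (inr κ) trivial (by simp)) h (hM.root _)
  have h := hRB J T (fun j => em K ⁻¹' B j) (fun x => em K ⁻¹' F (inl x))
    ⟨⟨fun j hj => cone_conn (hM.mB.conn j hj) (n1 j hj),
      fun i hi j hj e => (hM.mB.disj i hi j hj e).preimage _⟩,
     ⟨fun x _ => cone_conn (hM.mF.conn _ trivial) (n2 x),
      fun x _ y _ e => (hM.mF.disj _ trivial _ trivial (by simpa using e)).preimage _⟩,
     fun x => hM.root (inl x), fun j hj x => (hM.dBF j hj _).preimage _⟩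
  have h1 : (tp (cone H K) T B).ncard ≤ (tp H T fun j => em K ⁻¹' B j).ncard :=
    Set.ncard_le_ncard fun p ⟨a, b, c, d⟩ => ⟨a, b, c, cone_touch (n1 _ a) (n1 _ b) d⟩
  have h2 : (tq (cone H K) T B F).ncard ≤
      (tq H T (fun j => em K ⁻¹' B j) fun x => em K ⁻¹' F (inl x)).ncard +
        T.ncard * Nat.card K := by
    rw [← Set.ncard_univ K, ← Set.ncard_prod]
    refine le_trans (Set.ncard_le_ncard (t := Prod.map id inl ''
      (tq H T (fun j => em K ⁻¹' B j) fun x => em K ⁻¹' F (inl x)) ∪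
        Prod.map id inr '' (T ×ˢ (Set.univ : Set K))) ?_) ((Set.ncard_union_le _ _).trans
          (Nat.add_le_add (Set.ncard_image_le) (Set.ncard_image_le)))
    rintro ⟨j, x | κ⟩ ⟨a, b⟩
    · exact Or.inl ⟨(j, x), ⟨a, cone_touch (n1 _ a) (n2 x) b⟩, rfl⟩
    · exact Or.inr ⟨(j, κ), ⟨a, trivial⟩, rfl⟩
  have h1' : ((_ : ℕ) : ℝ) ≤ _ := Nat.cast_le.2 h1
  have h2' : ((_ : ℕ) : ℝ) ≤ _ := Nat.cast_le.2 h2
  push_cast at h2'
  linarith

lemma tight_cone [Finite I] [Finite X] [Finite K]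
    (ht : 2 * β * Nat.card I ≤ (ii H).ncard + 2 * (ix H).ncard) :
    2 * (β + Nat.card K) * Nat.card I ≤ (ii (cone H K)).ncard + 2 * (ix (cone H K)).ncard := by
  have h1 : (ii H).ncard ≤ (ii (cone H K)).ncard := Set.ncard_le_ncard fun p h => cone_em h
  let g : ix H ⊕ I × K → ix (cone H K) :=
    Sum.elim (fun p => ⟨(p.1.1, inl p.1.2), cone_em p.2⟩) fun p => ⟨(p.1, inr p.2), cone_k _ _⟩
  have hg : Function.Injective g := by
    rintro (⟨⟨a, b⟩, h⟩ | ⟨a, b⟩) (⟨⟨a', b'⟩, h'⟩ | ⟨a', b'⟩) e <;>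
      simpa [g] using congrArg Subtype.val e
  have h2 := Nat.card_le_card_of_injective g hg
  rw [Nat.card_sum, Nat.card_prod, Nat.card_coe_set_eq, Nat.card_coe_set_eq] at h2
  have h1' : ((_ : ℕ) : ℝ) ≤ _ := Nat.cast_le.2 h1
  have h2' : ((_ : ℕ) : ℝ) ≤ _ := Nat.cast_le.2 h2
  push_cast at h2'
  linarith

lemma low_ach [Finite I] [Finite X] [Nonempty I] (hRB : RB β H)
    (ht : 2 * β * Nat.card I ≤ (ii H).ncard + 2 * (ix H).ncard)
    (hl : ∀ v, {x | H.Adj (inl v) (inr x)}.ncard ≤ 1) : Ach β := by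
  obtain ⟨u, hu⟩ := Finite.exists_max fun v : I => {x | H.Adj (inl v) (inr x)}.ncard
  set d := {x | H.Adj (inl u) (inr x)}.ncard with hd
  have h1 : d ≤ 1 := hl u
  have hp : ∀ v x, H.Adj (inl v) (inr x) → 1 ≤ d := fun v x h =>
    le_trans ((Set.ncard_pos (Set.toFinite _)).2 ⟨x, h⟩) (hu v)
  refine psi_ach hRB ht u d (fun _ => 1) hd (fun v x h => ?_) (fun v x x' h h' _ => ?_)
    (fun x h => hp u x h) (fun i a b => ?_)
  · have := hp v x h; omega
  · exact (Set.ncard_le_one (Set.toFinite _)).1 ((hu v).trans h1) x h x' h'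
  · obtain ⟨x, hx⟩ := (Set.ncard_pos (s := {x | H.Adj (inl u) (inr x)}) (Set.toFinite _)).1
      (by omega)
    exact ⟨x, hx, by omega⟩

lemma half_ach [Finite I] [Finite X] (hRB : RB β H)
    (ht : 2 * β * Nat.card I ≤ (ii H).ncard + 2 * (ix H).ncard) (u : I)
    (h4 : {x | ∃ v, H.Adj (inl v) (inr x)}.ncard ≤ 2 * {x | H.Adj (inl u) (inr x)}.ncard) :
    Ach β := by
  classical
  set d := {x | H.Adj (inl u) (inr x)}.ncard with hd
  let N : Set X := {x | H.Adj (inl u) (inr x)}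
  let M : Set X := {x | ∃ v, H.Adj (inl v) (inr x)} \ N
  have hM : Nat.card M ≤ d := by
    have := Set.ncard_sdiff_add_ncard_of_subset (s := N) (t := {x | ∃ v, H.Adj (inl v) (inr x)})
      (fun x hx => ⟨u, hx⟩)
    rw [Nat.card_coe_set_eq]
    change M.ncard + d = _ at this
    omega
  let e1 : N ≃ Fin d := Finite.equivFinOfCardEq (by rw [Nat.card_coe_set_eq])
  let e2 := Finite.equivFin M
  let ψ : X → ℕ := fun x =>
    if h : x ∈ N then e1 ⟨x, h⟩ + 1 else if h' : x ∈ M then d + 1 + e2 ⟨x, h'⟩ else 0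
  have a1 : ∀ x (h : x ∈ N), ψ x = e1 ⟨x, h⟩ + 1 := fun x h => dif_pos h
  have a2 : ∀ x (h : x ∈ M), ψ x = d + 1 + e2 ⟨x, h⟩ := fun x h => by
    simp only [ψ, dif_neg h.2, dif_pos h]
  refine psi_ach hRB ht u d ψ hd (fun v x h => ?_) (fun v x x' h h' e => ?_)
    (fun x h => ?_) (fun i a b => ?_)
  · by_cases hx : x ∈ N
    · have := (e1 ⟨x, hx⟩).2
      rw [a1 x hx]; omega
    · have := (e2 ⟨x, ⟨v, h⟩, hx⟩).2
      rw [a2 x ⟨⟨v, h⟩, hx⟩]; omega
  · by_cases hx : x ∈ N <;> by_cases hx' : x' ∈ N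
    · rw [a1 x hx, a1 x' hx'] at e
      exact congrArg Subtype.val (e1.injective (Fin.ext (Nat.add_right_cancel e)))
    · have := (e1 ⟨x, hx⟩).2
      rw [a1 x hx, a2 x' ⟨⟨v, h'⟩, hx'⟩] at e; omega
    · have := (e1 ⟨x', hx'⟩).2
      rw [a1 x' hx', a2 x ⟨⟨v, h⟩, hx⟩] at e; omega
    · rw [a2 x ⟨⟨v, h⟩, hx⟩, a2 x' ⟨⟨v, h'⟩, hx'⟩] at e
      exact congrArg Subtype.val (e2.injective (Fin.ext (Nat.add_left_cancel e)))
  · have := (e1 ⟨x, h⟩).2
    rw [a1 x h]; omega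
  · refine ⟨e1.symm ⟨i - 1, by omega⟩, (e1.symm _).2, ?_⟩
    rw [a1 _ (e1.symm _).2]
    simp only [Subtype.coe_eta, Equiv.apply_symm_apply]
    omega

lemma cone_half [Finite I] [Finite X] (hRB : RB β H)
    (ht : 2 * β * Nat.card I ≤ (ii H).ncard + 2 * (ix H).ncard) (u : I) (k : ℕ)
    (h4 : {x | ∃ v, H.Adj (inl v) (inr x)}.ncard ≤ 2 * {x | H.Adj (inl u) (inr x)}.ncard + k) :
    Ach (β + k) := by
  have h1 := rb_cone (K := Fin k) hRB
  have h2 := tight_cone (K := Fin k) ht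
  rw [Nat.card_fin] at h1 h2
  refine half_ach h1 h2 u ?_
  have c : ∀ A : Set X, (inl '' A ∪ Set.range (inr : Fin k → X ⊕ Fin k)).ncard = A.ncard + k := by
    intro A
    rw [Set.ncard_union_eq (by simp [Set.disjoint_left]),
      Set.ncard_image_of_injective _ inl_injective, Set.ncard_range_of_injective inr_injective,
      Nat.card_fin]
  have a1 : {y | ∃ v, (cone H (Fin k)).Adj (inl v) (inr y)}.ncard ≤
      {x | ∃ v, H.Adj (inl v) (inr x)}.ncard + k := by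
    rw [← c]
    refine Set.ncard_le_ncard ?_
    rintro (x | κ) ⟨v, h⟩
    · obtain ⟨a', b', h1, h2, h3⟩ := cone_pre (S := {inl v}) (T := {inr (inl x)}) (by simp)
        (by simp) rfl rfl h
      obtain rfl : inl v = a' := em_inj h2
      obtain rfl : inr x = b' := em_inj h3
      exact Or.inl ⟨x, ⟨v, h1⟩, rfl⟩
    · exact Or.inr ⟨κ, rfl⟩
  have a2 : {x | H.Adj (inl u) (inr x)}.ncard + k ≤
      {y | (cone H (Fin k)).Adj (inl u) (inr y)}.ncard := by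
    rw [← c]
    refine Set.ncard_le_ncard ?_
    rintro _ (⟨x, h, rfl⟩ | ⟨κ, rfl⟩)
    · exact cone_em h
    · exact cone_k _ _
  omega

/-- achievable values are closed under adding a natural number -/
lemma ach_add (h : Ach β) (k : ℕ) : Ach (β + k) := by
  obtain ⟨V, _, ⟨u⟩, G, h1, h2⟩ := h
  let f : V ⊕ Empty → V := Sum.elim id Empty.elim
  have hf : Function.Injective f := by
    rintro (a | a) (b | b) e
    exacts [congrArg inl e, b.elim, a.elim, a.elim]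
  refine cone_half (H := G.comap f) ?_ ?_ u k (by simp [Set.eq_empty_of_isEmpty])
  · intro J _ T B F hM
    have k1 := h1.on (T := T) (B := fun j => f '' B j)
      ⟨fun j hj => (hM.mB.conn j hj).image f fun a _ b _ h => Or.inl h,
        fun i hi j hj e => Set.disjoint_image_of_injective hf (hM.mB.disj i hi j hj e)⟩
    have k2 : (tp (G.comap f) T B).ncard ≤ (tp G T fun j => f '' B j).ncard :=
      Set.ncard_le_ncard fun p ⟨a, b, c, x, hx, y, hy, d⟩ =>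
        ⟨a, b, c, _, ⟨x, hx, rfl⟩, _, ⟨y, hy, rfl⟩, d⟩
    have k2' : ((_ : ℕ) : ℝ) ≤ _ := Nat.cast_le.2 k2
    rw [Set.eq_empty_of_isEmpty (tq _ _ _ _)]
    simp only [Set.ncard_empty, Nat.cast_zero]
    linarith
  · have : (0 : ℝ) ≤ (ix (G.comap f)).ncard := Nat.cast_nonneg _
    have e : (ii (G.comap f)).ncard = dn G := rfl
    rw [e]
    linarith

lemma cone_ach [Finite I] [Finite X] [Nonempty I] (hRB : RB β H)
    (ht : 2 * β * Nat.card I ≤ (ii H).ncard + 2 * (ix H).ncard) {k : ℕ}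
    (h4 : {x | ∃ v, H.Adj (inl v) (inr x)}.ncard ≤ k + 4) : Ach (β + k) := by
  by_cases hl : ∀ v, {x | H.Adj (inl v) (inr x)}.ncard ≤ 1
  · exact ach_add (low_ach hRB ht hl) k
  · push Not at hl
    obtain ⟨u, hu⟩ := hl
    exact cone_half hRB ht u k (by omega)

theorem gadget_shift [Finite I] [Finite X] [Nonempty I] {k : ℕ} (hRB : RB β H)
    (ht : 2 * β * Nat.card I ≤ (ii H).ncard + 2 * (ix H).ncard)
    (h4 : ∀ C : Set I, Conn (H.comap inl) C →
      {x | ∃ v ∈ C, H.Adj (inl v) (inr x)}.ncard ≤ k + 4) : Ach (β + k) := by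
  classical
  let σ : Set I → ℝ := fun C => {p ∈ ii H | p.1 ∈ C ∧ p.2 ∈ C}.ncard +
    2 * ({p ∈ ix H | p.1 ∈ C}.ncard : ℝ) - 2 * β * C.ncard
  obtain ⟨C, ⟨hne, hσ⟩, hmin⟩ := (Set.toFinite {C : Set I | C.Nonempty ∧ 0 ≤ σ C}).exists_minimal
    ⟨Set.univ, Set.univ_nonempty, by simpa [σ] using ht⟩
  have hC : Conn (H.comap inl) C := by
    obtain ⟨r, hr⟩ := hne
    let C1 := {v | Rch (H.comap inl) C r v}
    have h1 : C1 ⊆ C := fun v hv => Rch.mem hv hr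
    refine Conn.of_root hr ?_
    by_contra hh
    push Not at hh
    obtain ⟨w, hw, hw'⟩ := hh
    have a1 : σ C1 < 0 := by
      by_contra h
      exact hw' (hmin ⟨⟨r, Rch.refl _ _⟩, not_lt.1 h⟩ h1 hw)
    have a2 : σ (C \ C1) < 0 := by
      by_contra h
      exact (hmin (y := C \ C1) ⟨⟨w, hw, hw'⟩, not_lt.1 h⟩ Set.sdiff_subset hr).2 (Rch.refl _ _)
    have b1 : {p ∈ ii H | p.1 ∈ C ∧ p.2 ∈ C}.ncard ≤ {p ∈ ii H | p.1 ∈ C1 ∧ p.2 ∈ C1}.ncard +
        {p ∈ ii H | p.1 ∈ C \ C1 ∧ p.2 ∈ C \ C1}.ncard := by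
      refine le_trans (Set.ncard_le_ncard ?_) (Set.ncard_union_le _ _)
      rintro p ⟨h, h2, h3⟩
      by_cases hp : p.1 ∈ C1
      · exact Or.inl ⟨h, hp, Rch.tail hp h h3⟩
      · exact Or.inr ⟨h, ⟨h2, hp⟩, h3, fun h4 => hp (Rch.tail h4 (SimpleGraph.Adj.symm h) h2)⟩
    have b2 : {p ∈ ix H | p.1 ∈ C}.ncard ≤ {p ∈ ix H | p.1 ∈ C1}.ncard +
        {p ∈ ix H | p.1 ∈ C \ C1}.ncard := by
      refine le_trans (Set.ncard_le_ncard ?_) (Set.ncard_union_le _ _)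
      rintro p ⟨h, h2⟩
      by_cases hp : p.1 ∈ C1
      · exact Or.inl ⟨h, hp⟩
      · exact Or.inr ⟨h, h2, hp⟩
    have b3 := Set.ncard_sdiff_add_ncard_of_subset h1
    have b1' : ((_ : ℕ) : ℝ) ≤ _ := Nat.cast_le.2 b1
    have b2' : ((_ : ℕ) : ℝ) ≤ _ := Nat.cast_le.2 b2
    have b3' : ((_ : ℕ) : ℝ) = _ := congrArg Nat.cast b3
    simp only [σ] at a1 a2 hσ
    push_cast at b1' b2' b3'
    rw [← b3'] at hσ
    linarith
  have : Nonempty C := hne.to_subtype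
  refine cone_ach (hRB.comap (Subtype.val : C → I) Subtype.val_injective) ?_ ?_
  · have c1 : {p ∈ ii H | p.1 ∈ C ∧ p.2 ∈ C}.ncard ≤
        (ii (H.comap (Sum.map (Subtype.val : C → I) id))).ncard := by
      refine le_trans (Set.ncard_le_ncard ?_)
        (Set.ncard_image_le (f := fun p : C × C => (p.1.1, p.2.1)))
      rintro ⟨a, b⟩ ⟨h, h1, h2⟩
      exact ⟨(⟨a, h1⟩, ⟨b, h2⟩), h, rfl⟩
    have c2 : {p ∈ ix H | p.1 ∈ C}.ncard ≤
        (ix (H.comap (Sum.map (Subtype.val : C → I) id))).ncard := by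
      refine le_trans (Set.ncard_le_ncard ?_)
        (Set.ncard_image_le (f := fun p : C × X => (p.1.1, p.2)))
      rintro ⟨a, b⟩ ⟨h, h1⟩
      exact ⟨(⟨a, h1⟩, b), h, rfl⟩
    have c1' : ((_ : ℕ) : ℝ) ≤ _ := Nat.cast_le.2 c1
    have c2' : ((_ : ℕ) : ℝ) ≤ _ := Nat.cast_le.2 c2
    rw [Nat.card_coe_set_eq]
    simp only [σ] at hσ
    linarith
  · refine le_trans (Set.ncard_le_ncard ?_) (h4 C hC)
    rintro x ⟨v, h⟩
    exact ⟨v.1, v.2, h⟩

lemma ring_many [Finite I] [Finite X] {P : Per I X} {k t : ℕ}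
    (h5 : ¬ FinMinor (completeBipartiteGraph (Fin (k + 5)) (Fin t)) (P.gr ℤ)) (C : Set (ZMod 3 × I))
    (hC : Conn ((P.gr (ZMod 3)).comap inl) C) :
    {x | ∃ v ∈ C, (P.gr (ZMod 3)).Adj (inl v) (inr x)}.ncard ≤ k + 4 := by
  by_contra hlt
  apply h5
  obtain ⟨N, hN, hN5⟩ := Set.exists_subset_card_eq (n := k + 5) (not_le.1 hlt)
  have e : N ≃ Fin (k + 5) := Finite.equivFinOfCardEq (by rw [Nat.card_coe_set_eq, hN5])
  obtain ⟨L, b1, b2, b3, b4⟩ := exists_lift (P := P) (S := inl '' C)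
    (hC.image _ fun _ _ _ _ h => Or.inl h)
  have hnr : ∀ x, inr x ∉ L := by
    intro x h
    have : pj (inr x) ∈ inl '' C := b3 ▸ ⟨_, h, rfl⟩
    simp [pj] at this
  have ht : ∀ (i : Fin (k + 5)) (m : ℤ), Touch (P.gr ℤ) {inr (e.symm i).1} (sh (3 * m) '' L) := by
    intro i m
    obtain ⟨v, hv, h⟩ := hN (e.symm i).2
    obtain ⟨a, ha, ea⟩ : inl v ∈ pj '' L := b3 ▸ ⟨v, hv, rfl⟩
    rw [← ea] at h
    obtain ⟨c, h1, h2⟩ := pj_lift a _ h
    obtain ⟨l, rfl⟩ := pj_fib (a := inr (e.symm i).1) h2.symm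
    exact ⟨_, rfl, _, ⟨a, ha, rfl⟩, (sh_adj (3 * m) h1).symm⟩
  have hd : ∀ (x : X) (m : ℤ), Disjoint {inr x} (sh (3 * m) '' L) := by
    intro x m
    rw [Set.disjoint_left]
    rintro _ rfl ⟨a, ha, ea⟩
    obtain rfl : a = inr x := sh_inj (3 * m) ea
    exact hnr x ha
  refine ⟨Sum.elim (fun i => {inr (e.symm i).1}) (fun m => sh (3 * (m : ℕ)) '' L), ⟨?_, ?_⟩, ?_, ?_⟩
  · rintro (i | m) -
    · exact Conn.singleton _ _
    · exact conn_sh _ b1
  · rintro (i | m) - (i' | m') - h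
    · simpa [Subtype.val_inj] using h
    · exact hd _ _
    · exact (hd _ _).symm
    · exact disj_sh b4 hnr fun e => h (congrArg inr (Fin.ext (Int.natCast_inj.1 e)))
  · rintro (i | m)
    · exact Set.finite_singleton _
    · exact b2.image _
  · rintro (i | m) (i' | m') h
    · simp at h
    · exact ht _ _
    · exact (ht _ _).symm
    · simp at h

theorem per_shift [Finite I] [Finite X] [Nonempty I] {P : Per I X} {k t : ℕ}
    (hF : ∀ (W : Type) [Finite W] (K : SimpleGraph W), FinMinor K (P.gr ℤ) →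
      (dn K : ℝ) ≤ 2 * β * Nat.card W)
    (h5 : ¬ FinMinor (completeBipartiteGraph (Fin (k + 5)) (Fin t)) (P.gr ℤ))
    (hw : 2 * β * Nat.card I ≤ P.wt) : Ach (β + k) := by
  refine gadget_shift (ring_RB hF) ?_ (ring_many h5)
  have h1 : ((_ : ℕ) : ℝ) ≤ _ := Nat.cast_le.2 (ring_count (P := P))
  rw [Nat.card_prod, Nat.card_zmod]
  push_cast at h1 ⊢
  linarith

end

variable {β : ℝ} {C : ∀ V : Type, SimpleGraph V → Prop}

lemma rec_shift (hC : Cls β C) {k t s l : ℕ}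
    (h5 : ¬ C _ (completeBipartiteGraph (Fin (k + 5)) (Fin t))) {τ : Ty s l} (h : Rec C τ)
    (hl : 1 ≤ l) (hw : 2 * β * l ≤ τ.per.wt) : Ach (β + k) := by
  have : Nonempty (Fin l) := ⟨⟨0, hl⟩⟩
  exact per_shift (P := τ.per) (fun W _ K hK => hC.bd _ _ (h.mem hC W K hK))
    (fun hK => h5 (h.mem hC _ _ hK)) (by simpa using hw)

theorem shift_of_bw (hC : Cls β C) (hβ : 0 ≤ β) {W k t : ℕ}
    (hW : ∀ (V : Type) [DecidableEq V] (G : SimpleGraph V), C V G → BW G W)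
    (h5 : ¬ C _ (completeBipartiteGraph (Fin (k + 5)) (Fin t)))
    (hsup : ∀ ε > 0, ∃ (V : Type) (G : SimpleGraph V), C V G ∧ (2 * β - ε) * Nat.card V < dn G) :
    Ach (β + k) := by
  classical
  by_contra hn'
  have hn : ¬ Ach β := fun h => hn' (ach_add h k)
  obtain ⟨K1, hK1⟩ := hang_bound hC hβ hW (W + 2)
  obtain ⟨η, hη, K, -, hK⟩ := chain_bound hC hβ
    (fun s l τ h1 h2 h3 => hn' (rec_shift hC h5 h3 h1 h2)) (W + 1) (K1 + (W + 2))
  obtain ⟨n, hn1⟩ := exists_nat_gt ((K + 1 + 2 * β * W) / η)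
  rw [div_lt_iff₀ hη] at hn1
  have hM : (0 : ℝ) < ((2 * 3 ^ n + 2 * W + 2 : ℕ) : ℝ) := by positivity
  obtain ⟨ε, hε, V, G, hG, hs, hV⟩ := exists_large hC hn hsup (3 ^ n)
    (lt_min (one_div_pos.2 hM) (show 0 < 2 * β from lt_of_le_of_ne (by positivity) fun e => by
      obtain ⟨V, G, hG, h⟩ := hsup 1 one_pos
      have : Nonempty V := by
        by_contra he
        rw [not_nonempty_iff] at he
        simp [dn, Set.eq_empty_of_isEmpty] at h
      exact hn (hC.ach hG (by rw [← e]; simp))))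
  have := hC.fin _ _ hG
  obtain ⟨T, t1, t2⟩ := hW V G hG
  have hT : it G ∅ T.set = Set.univ := Set.eq_univ_of_forall fun v => by
    obtain ⟨w, hw⟩ := SM.adj (U := Set.univ) (sub_nonneg.2 (hε.trans (min_le_right _ _)))
      (by rwa [Set.compl_univ]) (Set.mem_univ v)
    refine ⟨⟨(v, w), (t1 _).2 hw, Or.inl rfl⟩, ?_⟩
    rintro (h | ⟨p, h1, h2, -⟩)
    exacts [h, h2 ((t1 p).2 h1)]
  obtain ⟨T', a1, a2, a3, a4⟩ := exists_mid (3 ^ n) T (fun p hp => (t1 p).1 hp) t2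
    (by rw [hT, Set.ncard_univ]; exact hV.le)
  obtain ⟨Z, z1, z2, z3⟩ := exists_chain T' a1 a2
  have z4 := z3 ∅ (by simp)
  rw [Set.union_empty] at z4
  obtain ⟨J, _, B, π, b1, b2, b3, b4, b5, b6⟩ := exists_sm (G := G) (2 * β) Z (mt T'.set) _
    (mt T'.set) (fun j => {j.1}) (fun v => ⟨v.1, (z1 v.2).1⟩) (Nat.lt_succ_self _)
    (model_single _) (fun v => rfl) (fun a b e => Subtype.ext (congrArg Subtype.val e :))
    (fun j => by simp)
  have hG' := hC.minor _ _ _ _ hG (tg_minor b1)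
  have c1 : ∀ q, ReflTransGen (StepZ G W Z) (∅, ∅) q → ReflTransGen
      (Step (tg G B) (W + 1) (K1 + (W + 2))) (img B ∅, img B ∅) (img B q.1, img B q.2) := by
    intro q hq
    induction hq with
    | refl => exact ReflTransGen.refl
    | tail _ h ih =>
      exact ih.tail (img_step b1 b2 (fun U S u1 u2 u3 => hK1 J _ U S hG' (b5.mono u1) u2 u3) h)
  have c2 := hK _ _ hG' _ _ (c1 _ z4)
  have c3 : img B (mt T'.set) = Set.univ := Set.eq_univ_of_forall fun j => by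
    obtain ⟨v, hv⟩ := (b1.conn j trivial).1
    exact ⟨v, hv, b4 j hv⟩
  have c4 : img B (∅ : Set V) = ∅ := by simp [img]
  simp only [c3, c4, Pot, dIn, Set.mem_univ, and_true, Set.mem_empty_iff_false, and_false,
    Set.ofPred_false, Set.ncard_empty, Set.ncard_univ] at c2
  change (dn (tg G B) : ℝ) - _ - _ ≤ K at c2
  have d1 : ((_ : ℕ) : ℝ) ≤ _ := Nat.cast_le.2 ((it_bd (G := G) (Z := ∅) (F := T'.set) ▸
    dAt_le (G := G) (U := it G ∅ T'.set) (S := bd G ∅ T'.set)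
    fun x hx y hy => it_bd.superset (it_nb hx hy)).trans (tg_single _))
  have d2 := (hs.mono (Z' := (it G ∅ T'.set)ᶜ) (Set.empty_subset _)).pos
    ((Set.ncard_pos (Set.toFinite _)).1 (lt_of_lt_of_le (by positivity) a3))
  have d3 : (Nat.card (mt T'.set) : ℝ) = (it G ∅ T'.set).ncard + (bd G ∅ T'.set).ncard := by
    rw [Nat.card_coe_set_eq, ← it_bd (G := G) (Z := ∅), Set.ncard_union_eq it_disj, Nat.cast_add]
  have d4 : ((bd G ∅ T'.set).ncard : ℝ) ≤ W := Nat.cast_le.2 (valid_le a2)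
  have d5 : ε * (it G ∅ T'.set).ncard ≤ 1 := by
    have h1 := hε.trans (min_le_left _ _)
    have h2 : ((_ : ℕ) : ℝ) ≤ _ := Nat.cast_le.2 a4
    rw [le_div_iff₀ hM] at h1
    rcases le_total ε 0 with h | h
    · nlinarith [Nat.cast_nonneg (α := ℝ) (it G ∅ T'.set).ncard]
    · nlinarith
  have d6 : n < Nat.card J := by
    have h1 : n < Z.ncard := (Nat.pow_lt_pow_iff_right (by norm_num : 1 < 3)).1 (by omega)
    rw [← Nat.card_coe_set_eq] at h1
    exact h1.trans_le (Nat.card_le_card_of_injective π b3)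
  have d7 : (n : ℝ) < Nat.card J := Nat.cast_lt.2 d6
  simp only [vl] at d2
  rw [d3] at b6
  push_cast at c2
  nlinarith

theorem shift_tw {P : (n : ℕ) → SimpleGraph (Fin n) → Prop} (hP : MC P)
    (hβ : IsLUB (Dens P) β) {q k t : ℕ}
    (hw : ∀ n G, P n G → ∃ (m : ℕ) (T : SimpleGraph (Fin m)) (X : Fin m → Set (Fin n)),
      T.IsTree ∧ (∀ v, (T.induce {i | v ∈ X i}).Connected) ∧
      (∀ u v, G.Adj u v → ∃ i, u ∈ X i ∧ v ∈ X i) ∧ ∀ i, (X i).ncard ≤ q)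
    (h5 : ¬ CP P _ (completeBipartiteGraph (Fin (k + 5)) (Fin t))) : Achv (β + k) := by
  refine (shift_of_bw (cls_cp hP hβ.1) (nonneg_cp hβ) (W := 3 * q + 2) (fun V _ G hG => ?_) h5
    (sup_cp hβ)).achv
  have := hG.fin
  let e := Finite.equivFin V
  obtain ⟨m, T, X, t1, t2, t3, t4⟩ := hw _ _ (hG.comap hP e.symm)
  refine H19.bw_of_sep (sep_of_td t1 (X := fun i => e ⁻¹' X i)
    (fun v => (conn_iff_induce _).2 (t2 (e v))) (fun u v h => t3 _ _ (by simpa using h)) fun i => ?_)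
  rw [Set.ncard_preimage_of_injective_subset_range e.injective (by simp)]
  exact t4 i

end Pool.Agent.MP_c60df9_co.H48
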